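import Pool.Agent.Q296.Match.Main

/-!
# The largest discrepancy between two ways of sampling a matching pair is less than one

For every probability distribution `p` on any set of colors the discrepancy satisfies
`D(p) ≤ 1 - exp(-3/2)/2 < 1`. Hence `ℓ₀ ≤ 1 - exp(-3/2)/2 < 1`.
-/

namespace Pool.Agent.Results.MP_c9cfcf_pr.DiscrepancyBelowOne

open Q296.Match

theorem result :
    (∀ (C : Type) (p : PMF C),
      discrepancy p ≤ ENNReal.ofReal (1 - Real.exp (-(3 / 2)) / 2)) ∧
    (⨆ p : PMF ℕ, discrepancy p) < 1 := by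
  have h : ∀ (C : Type) (p : PMF C),
      discrepancy p ≤ ENNReal.ofReal (1 - Real.exp (-(3 / 2)) / 2) :=
    fun C p => discrepancy_le p
  refine ⟨h, lt_of_le_of_lt (iSup_le fun p => h ℕ p) ?_⟩
  rw [← ENNReal.ofReal_one]
  refine (ENNReal.ofReal_lt_ofReal_iff (by norm_num)).2 ?_
  have : 0 < Real.exp (-(3 / 2)) / 2 := by positivity
  linarith

end Pool.Agent.Results.MP_c9cfcf_pr.DiscrepancyBelowOne
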